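import Pool.Agent.H12.Rig.Short3

namespace Pool.Agent.Results.MP_562323_ag.ConsecutivePowers

open MvPolynomial

/-- Let `m = (x_1, ..., x_n)` in `K[x_1, ..., x_n]`, `n ≥ 1`, `K` any field, and let `I` be an ideal
with `m ^ (s + 1) ≤ I ≤ m ^ s` for some `s ≥ 2`. Then `Spec (K[x_1, ..., x_n] / I)` is not rigid:
some linear map `I → K[x_1, ..., x_n] / I` is not induced by a derivation. -/
theorem result (K : Type) [Field K] (n : ℕ) (hn : 1 ≤ n) (s : ℕ) (hs : 2 ≤ s)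
    (I : Ideal (MvPolynomial (Fin n) K))
    (h1 : Ideal.span (Set.range (X : Fin n → MvPolynomial (Fin n) K)) ^ (s + 1) ≤ I)
    (h2 : I ≤ Ideal.span (Set.range (X : Fin n → MvPolynomial (Fin n) K)) ^ s) :
    ∃ φ : I →ₗ[MvPolynomial (Fin n) K] (MvPolynomial (Fin n) K ⧸ I),
      ¬ ∃ a : Fin n → MvPolynomial (Fin n) K ⧸ I, ∀ f : I,
        φ f = ∑ i : Fin n,
          Ideal.Quotient.mk I (pderiv i (f : MvPolynomial (Fin n) K)) * a i :=
  Pool.Agent.H12.Rig.short hn s hs I h1 h2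

end Pool.Agent.Results.MP_562323_ag.ConsecutivePowers
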