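import Pool.Agent.H12.EK.DensK
import Pool.Agent.H12.EK.DeepK
import Pool.Agent.H12.EK.Wt
import Pool.Agent.H12.EW.DeepG
import Pool.Agent.H83.EX.Uniq

/-!
The Kakutani 5x+1 map: asymptotic formulas for the number of the `n ≤ N` whose trajectory reaches
`L * n`, or exceeds `n ^ ρ`, before it falls below `n ^ β`, for
`7 log 5 / (14 log 2 + 6 log 3) < β < 1`.

The definitions are in `Pool/Agent/H83/EX/Defs.lean` (`C`, `P`, `F`, `IsThetaStar`),
`Pool/Agent/H12/EW/DeepS.lean` (`ExceedsB`, `StaysB`), `Pool/Agent/H12/EW/DensB.lean` (`ReachB`),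
`Pool/Agent/H12/EV/Walk.lean` (`W`) and `Pool/Agent/H12/EW/Walk0.lean` (`reach`).
-/

namespace Pool.Agent.Results.MP_4d3999_nt.DeepBarrier

open Filter Pool.Agent.H83.EX Pool.Agent.H12.EW Pool.Agent.H12.EK
open Pool.Agent.H12.EV (mean cnt)

lemma half_lt_star :
    (1 : ℝ) / 2 < 7 * Real.log 5 / (14 * Real.log 2 + 6 * Real.log 3) := by
  have h2 : 0 < Real.log 2 := Real.log_pos (by norm_num)
  have h3 : 0 < Real.log 3 := Real.log_pos (by norm_num)
  rw [lt_div_iff₀ (by positivity)]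
  have e1 : Real.log (3456 : ℝ) = 7 * Real.log 2 + 3 * Real.log 3 := by
    rw [show (3456 : ℝ) = 2 ^ 7 * 3 ^ 3 by norm_num, Real.log_mul (by norm_num) (by norm_num),
      Real.log_pow, Real.log_pow]
    push_cast
    ring
  have e2 : Real.log (78125 : ℝ) = 7 * Real.log 5 := by
    rw [show (78125 : ℝ) = 5 ^ 7 by norm_num, Real.log_pow]
    push_cast
    ring
  have h4 : Real.log (3456 : ℝ) < Real.log 78125 := Real.log_lt_log (by norm_num) (by norm_num)
  linarith

/-- There is exactly one `θ > 0` for which the Perron root of `F θ * P` is one, and for this `θ`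
there is `κ > 0` such that, with `a = 1 - θ * (ρ - 1)`:

* `reach L * L ^ θ` tends to `κ` as `L` tends to infinity, where `reach L` is the probability
  that the model of the problem ever reaches the value `L`;
* for `L > 0` and `7 log 5 / (14 log 2 + 6 log 3) < β < 1` the density of the `n` whose trajectory
  reaches `L * n` before it falls below `n ^ β` is `reach L`, also if those which never fall below
  `n ^ β` are counted; and the set of the `n` which never fall below `n ^ β` has density zero;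
* for every such `β` there is `ρ₀ > 1` such that for `1 < ρ < ρ₀` the number of the `n ≤ N` whose
  trajectory exceeds `n ^ ρ` before it falls below `n ^ β` is asymptotic to `κ / a * N ^ a`,
  also if those which never fall below `n ^ β` are counted;
* the same for all `ρ > 1` and `β < 1` with `θ * (ρ - 1) + (1 - β) < 0.14`. -/
theorem result : ∃ θ : ℝ, IsThetaStar θ ∧ (∀ θ' : ℝ, IsThetaStar θ' → θ' = θ) ∧
    ∃ κ : ℝ, 0 < κ ∧
    Tendsto (fun L : ℝ => reach L * L ^ θ) atTop (nhds κ) ∧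
    (∀ β : ℝ, 7 * Real.log 5 / (14 * Real.log 2 + 6 * Real.log 3) < β → β < 1 →
      (∀ L : ℝ, 0 < L →
        Tendsto (fun N : ℕ => (Set.ncard {n : ℕ | 1 ≤ n ∧ n ≤ N ∧ ReachB β L n} : ℝ) / N) atTop
          (nhds (reach L)) ∧
        Tendsto (fun N : ℕ =>
          (Set.ncard {n : ℕ | 1 ≤ n ∧ n ≤ N ∧ (ReachB β L n ∨ StaysB β n)} : ℝ) / N) atTop
          (nhds (reach L))) ∧
      Tendsto (fun N : ℕ => (Set.ncard {n : ℕ | 1 ≤ n ∧ n ≤ N ∧ StaysB β n} : ℝ) / N) atTop
        (nhds 0)) ∧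
    (∀ β : ℝ, 7 * Real.log 5 / (14 * Real.log 2 + 6 * Real.log 3) < β → β < 1 →
      ∃ ρ₀ : ℝ, 1 < ρ₀ ∧ ∀ ρ : ℝ, 1 < ρ → ρ < ρ₀ →
      Tendsto (fun N : ℕ => (Set.ncard {n : ℕ | 1 ≤ n ∧ n ≤ N ∧ ExceedsB β ρ n} : ℝ) /
        (N : ℝ) ^ (1 - θ * (ρ - 1))) atTop (nhds (κ / (1 - θ * (ρ - 1)))) ∧
      Tendsto (fun N : ℕ =>
        (Set.ncard {n : ℕ | 1 ≤ n ∧ n ≤ N ∧ (ExceedsB β ρ n ∨ StaysB β n)} : ℝ) /
        (N : ℝ) ^ (1 - θ * (ρ - 1))) atTop (nhds (κ / (1 - θ * (ρ - 1))))) ∧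
    (∀ ρ β : ℝ, 1 < ρ → β < 1 → θ * (ρ - 1) + (1 - β) < 7 / 50 →
      Tendsto (fun N : ℕ => (Set.ncard {n : ℕ | 1 ≤ n ∧ n ≤ N ∧ ExceedsB β ρ n} : ℝ) /
        (N : ℝ) ^ (1 - θ * (ρ - 1))) atTop (nhds (κ / (1 - θ * (ρ - 1)))) ∧
      Tendsto (fun N : ℕ =>
        (Set.ncard {n : ℕ | 1 ≤ n ∧ n ≤ N ∧ (ExceedsB β ρ n ∨ StaysB β n)} : ℝ) /
        (N : ℝ) ^ (1 - θ * (ρ - 1))) atTop (nhds (κ / (1 - θ * (ρ - 1))))) := by
  obtain ⟨θ, hθ⟩ := exists_thetaStar
  have hθ' := hθ
  obtain ⟨hθ0, w, hw, hv⟩ := hθ'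
  have hE := eqs_of hv
  have hlt : θ < 52 / 23 := theta_lt hθ0 hw hE
  have hgt : 2 < θ := theta_gt hθ0 hw hE
  have hPar := Pool.Agent.H12.EV.par_of hgt hlt hw hE
  obtain ⟨c, hc0, hc⟩ := Pool.Agent.H82.EV.renewal hPar
  have hpos : 0 < mean (fun r => c * Pool.Agent.H83.EX.vN 1 w r) := by
    unfold Pool.Agent.H12.EV.mean
    refine div_pos (Finset.sum_pos ?_ ⟨0, Finset.mem_range.mpr (by norm_num)⟩) (by norm_num)
    intro r hr
    exact mul_pos hc0 (hPar.vpos r (Finset.mem_range.mp hr))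
  have hlim := reach_lim hc
  refine ⟨θ, hθ, fun θ' h' => thetaStar_unique hθ h',
    mean (fun r => c * Pool.Agent.H83.EX.vN 1 w r), hpos, hlim, ?_, ?_, ?_⟩
  · intro β hβ0 hβ
    obtain ⟨s, b, δ, U, u, hW, hsb⟩ := exists_weights hβ0 hβ
    have hβ2 : 1 / 2 ≤ β := (half_lt_star.trans hβ0).le
    constructor
    · intro L hL
      simp only [ncard_cnt]
      have h := lim_of (a := 1) (k := reach L)
        (f := fun N => (cnt (fun n => ReachB β L n) (N : ℝ) : ℝ))
        (g := fun N => (cnt (fun n => ReachB β L n ∨ StaysB β n) (N : ℝ) : ℝ))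
        (fun N => by exact_mod_cast cnt_mono' (fun n h => Or.inl h) (N : ℝ))
        (fun η hη => by
          have h1 := dens_low hPar hL hβ hη
          simpa only [Real.rpow_one] using h1)
        (fun η hη => by
          have h1 := dens_upK hPar hW hL hβ2 hβ hsb hη
          simpa only [Real.rpow_one] using h1)
      simpa only [Real.rpow_one] using h
    · simp only [ncard_cnt]
      have hr0 : Tendsto reach atTop (nhds 0) := by
        have h1 : Tendsto (fun L : ℝ => L ^ (-θ)) atTop (nhds 0) :=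
          tendsto_rpow_neg_atTop (by linarith)
        have h2 := hlim.mul h1
        rw [mul_zero] at h2
        refine h2.congr' ?_
        filter_upwards [eventually_gt_atTop (0 : ℝ)] with L hL
        rw [mul_assoc, ← Real.rpow_add hL]
        simp
      rw [Metric.tendsto_atTop']
      intro ε hε
      obtain ⟨L, hL1, hL2⟩ := ((hr0.eventually (gt_mem_nhds (show (0 : ℝ) < ε / 2 by
        linarith))).and (eventually_gt_atTop (0 : ℝ))).exists
      have h1 := dens_upK hPar hW hL2 hβ2 hβ hsb (show 0 < ε / 2 by linarith)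
      obtain ⟨N0, hN0⟩ := Filter.eventually_atTop.mp (h1.and (eventually_ge_atTop 1))
      refine ⟨N0, ?_⟩
      intro N hN
      obtain ⟨h2, h3⟩ := hN0 N hN.le
      have hNpos : (0 : ℝ) < N := by exact_mod_cast h3
      have h4 : (cnt (fun n => StaysB β n) (N : ℝ) : ℝ) ≤
          (cnt (fun n => ReachB β L n ∨ StaysB β n) (N : ℝ) : ℝ) := by
        exact_mod_cast cnt_mono' (fun n h => Or.inr h) (N : ℝ)
      have h5 : (cnt (fun n => StaysB β n) (N : ℝ) : ℝ) / N < ε := by
        rw [div_lt_iff₀ hNpos]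
        have : (reach L + ε / 2) * (N : ℝ) < ε * N := mul_lt_mul_of_pos_right (by linarith) hNpos
        linarith
      rw [Real.dist_eq, sub_zero, abs_of_nonneg (by positivity)]
      exact h5
  · intro β hβ0 hβ
    obtain ⟨s, b, δ, U, u, hW, hsb⟩ := exists_weights hβ0 hβ
    have hβ2 : 1 / 2 ≤ β := (half_lt_star.trans hβ0).le
    set g : ℝ := min (1 / 10) ((1 - (b + s * (1 - β))) / (2 * θ)) with hg
    have hg0 : 0 < g := lt_min (by norm_num) (div_pos (by linarith) (by linarith))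
    refine ⟨1 + g, by linarith, ?_⟩
    intro ρ hρ hρg
    have hρ1 : ρ - 1 < g := by linarith
    have hρ0 : 0 < ρ - 1 := by linarith
    have hg1 : g ≤ 1 / 10 := min_le_left _ _
    have hg2 : θ * g ≤ (1 - (b + s * (1 - β))) / 2 := by
      have h1 : g ≤ (1 - (b + s * (1 - β))) / (2 * θ) := min_le_right _ _
      rw [le_div_iff₀ (by linarith)] at h1
      linarith
    have h2 : θ * (ρ - 1) < θ * g := mul_lt_mul_of_pos_left hρ1 hθ0
    have h3 : θ * g ≤ 52 / 23 * (1 / 10) := mul_le_mul hlt.le hg1 hg0.le (by norm_num)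
    simp only [ncard_cnt]
    refine lim_of ?_ ?_ ?_
    · intro N
      exact_mod_cast cnt_mono' (fun n h => Or.inl h) (N : ℝ)
    · intro η hη
      exact deep_lowG hPar hpos hc hlt hρ hβ (by linarith) hη
    · intro η hη
      exact deep_upK hW hθ0 hpos.le hc hρ hβ2 hβ (by linarith) (by linarith) hη
  · intro ρ β hρ hβ hρβ
    simp only [ncard_cnt]
    refine lim_of ?_ ?_ ?_
    · intro N
      exact_mod_cast cnt_mono' (fun n h => Or.inl h) (N : ℝ)
    · intro η hη
      exact deep_low hPar hpos hc hρ hβ hρβ hη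
    · intro η hη
      exact deep_up hθ0 hpos.le hc hρ hβ hρβ hη

end Pool.Agent.Results.MP_4d3999_nt.DeepBarrier
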