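import Pool.Agent.H12.EU.Equiv
import Pool.Agent.H83.EX.Uniq

/-!
The Kakutani 5x+1 map: the exact order of the number of `n ≤ N` whose trajectory exceeds `n ^ ρ`
before it falls below `n`, an upper bound for all `ρ`, and the equivalence with `t(n) > n ^ ρ` for
infinitely many `n`.
-/

namespace Pool.Agent.Results.MP_4d3999_nt.ExactOrder

open Pool.Agent.H83.EX Pool.Agent.H12.EU

lemma ncard_eq (N : ℕ) (ρ : ℝ) :
    Set.ncard {n : ℕ | 1 ≤ n ∧ n ≤ N ∧ Exceeds ρ n} = S ρ N := by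
  classical
  have h : {n : ℕ | 1 ≤ n ∧ n ≤ N ∧ Exceeds ρ n} =
      (((Finset.Icc 1 N).filter (fun n : ℕ => Exceeds ρ n) : Finset ℕ) : Set ℕ) := by
    ext n
    rw [Finset.mem_coe, Finset.mem_filter, Finset.mem_Icc]
    constructor
    · intro hn
      exact ⟨⟨hn.1, hn.2.1⟩, hn.2.2⟩
    · intro hn
      exact ⟨hn.1.1, hn.1.2, hn.2⟩
  rw [h, Set.ncard_coe_finset]
  unfold S
  congr

lemma ncard_eq' (N : ℕ) (ρ : ℝ) :
    Set.ncard {n : ℕ | 1 ≤ n ∧ n ≤ N ∧ (Exceeds ρ n ∨ Stays n)} = S' ρ N := by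
  classical
  have h : {n : ℕ | 1 ≤ n ∧ n ≤ N ∧ (Exceeds ρ n ∨ Stays n)} =
      (((Finset.Icc 1 N).filter (fun n : ℕ => Exceeds ρ n ∨ Stays n) : Finset ℕ) : Set ℕ) := by
    ext n
    rw [Finset.mem_coe, Finset.mem_filter, Finset.mem_Icc]
    constructor
    · intro hn
      exact ⟨⟨hn.1, hn.2.1⟩, hn.2.2⟩
    · intro hn
      exact ⟨hn.1.1, hn.1.2, hn.2⟩
  rw [h, Set.ncard_coe_finset]
  unfold S'
  congr

/-- There is exactly one `θ > 0` for which the Perron root of `F θ * P` is one; for this `θ`, for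
`1 < ρ ≤ 1.06` the number of `n ≤ N` whose trajectory exceeds `n ^ ρ` before it falls below `n` has
the exact order `N ^ (1 - θ * (ρ - 1))`; for every `ρ > 1` the number of `n ≤ N` whose trajectory
exceeds `n ^ ρ` before it falls below `n`, or never falls below `n`, is at most a constant times
`N ^ max (1 - θ * (ρ - 1)) 0.86`; and `t(n) > n ^ ρ` for infinitely many `n` if and only if
infinitely many trajectories exceed `n ^ ρ` before they fall below `n`. -/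
theorem result : ∃ θ : ℝ, IsThetaStar θ ∧ (∀ θ' : ℝ, IsThetaStar θ' → θ' = θ) ∧
    (∀ ρ : ℝ, 1 < ρ → ρ ≤ 53 / 50 → ∃ c C₀ : ℝ, 0 < c ∧ ∀ N : ℕ, 1 ≤ N →
      c * (N : ℝ) ^ (1 - θ * (ρ - 1)) ≤
        (Set.ncard {n : ℕ | 1 ≤ n ∧ n ≤ N ∧ Exceeds ρ n} : ℝ) ∧
      (Set.ncard {n : ℕ | 1 ≤ n ∧ n ≤ N ∧ Exceeds ρ n} : ℝ) ≤
        C₀ * (N : ℝ) ^ (1 - θ * (ρ - 1))) ∧
    (∀ ρ : ℝ, 1 < ρ → ∃ C₀ : ℝ, ∀ N : ℕ, 1 ≤ N →
      (Set.ncard {n : ℕ | 1 ≤ n ∧ n ≤ N ∧ (Exceeds ρ n ∨ Stays n)} : ℝ) ≤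
        C₀ * (N : ℝ) ^ (max (1 - θ * (ρ - 1)) (43 / 50))) ∧
    (∀ ρ : ℝ, 0 < ρ →
      ({n : ℕ | (((n : ℝ) ^ ρ : ℝ) : EReal) < t n}.Infinite ↔ {n : ℕ | Exceeds ρ n}.Infinite)) := by
  obtain ⟨θ, hθ⟩ := exists_thetaStar
  refine ⟨θ, hθ, fun θ' h' => thetaStar_unique hθ h', ?_, ?_, fun ρ hρ => infinite_iff hρ⟩
  · intro ρ h1 h2
    obtain ⟨c, hc, hlow⟩ := lower hθ h1 (by linarith)
    obtain ⟨C₀, _, hup⟩ := upper hθ h1.le
    refine ⟨c, C₀, hc, ?_⟩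
    intro N hN
    rw [ncard_eq]
    refine ⟨hlow N hN, ?_⟩
    have h3 : θ < 52 / 23 := by
      obtain ⟨hθ0, w, hw, hv⟩ := hθ
      exact theta_lt hθ0 hw (eqs_of hv)
    have h0 : 0 < θ := hθ.1
    have h4 : max (1 - θ * (ρ - 1)) (43 / 50) = 1 - θ * (ρ - 1) := by
      refine max_eq_left ?_
      nlinarith
    have h5 := hup N hN
    rw [h4] at h5
    have h6 : (S ρ N : ℝ) ≤ (S' ρ N : ℝ) := by exact_mod_cast S_le_S' ρ N
    exact h6.trans h5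
  · intro ρ h1
    obtain ⟨C₀, _, hup⟩ := upper hθ h1.le
    refine ⟨C₀, ?_⟩
    intro N hN
    rw [ncard_eq']
    exact hup N hN

end Pool.Agent.Results.MP_4d3999_nt.ExactOrder
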