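import Pool.Agent.H12.EV.Assemble
import Pool.Agent.H12.EW.PowerMain
import Pool.Agent.H82.EV.Renew
import Pool.Agent.H83.EX.Uniq

/-!
The Kakutani 5x+1 map: for every `ρ < log 25 / log 12 = 1.295...` at least `c * N ^ b` of the
`n ≤ N`, with an explicit `b > 0`, satisfy `t(n) > n ^ ρ`.

The definitions are in `Pool/Agent/H83/EX/Defs.lean` (`C`, `t`, `P`, `F`, `IsThetaStar`).
-/

namespace Pool.Agent.Results.MP_4d3999_nt.PowerCount

open Filter Pool.Agent.H83.EX Pool.Agent.H12.EW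

/-- There is exactly one `θ > 0` for which the Perron root of `F θ * P` is one; `17 / 100 * θ < 1`,
`117 / 100 < σ = log 25 / log 12`; and for every `ρ` with `117 / 100 ≤ ρ < σ` there is `c > 0` such
that for all `N ≥ 1` at least `c * N ^ b` of the `n ≤ N` satisfy `t(n) > n ^ ρ`, where
`b = (1 - 0.17 * θ) * (σ - ρ) / (σ - 1.17)`, which is positive. -/
theorem result : ∃ θ : ℝ, IsThetaStar θ ∧ (∀ θ' : ℝ, IsThetaStar θ' → θ' = θ) ∧
    17 / 100 * θ < 1 ∧ 117 / 100 < Real.log 25 / Real.log 12 ∧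
    ∀ ρ : ℝ, 117 / 100 ≤ ρ → ρ < Real.log 25 / Real.log 12 → ∃ c : ℝ, 0 < c ∧
      ∀ N : ℕ, 1 ≤ N →
      c * (N : ℝ) ^ ((1 - 17 / 100 * θ) * ((Real.log 25 / Real.log 12 - ρ) /
        (Real.log 25 / Real.log 12 - 117 / 100))) ≤
        (Set.ncard {n : ℕ | 1 ≤ n ∧ n ≤ N ∧ (((n : ℝ) ^ ρ : ℝ) : EReal) < t n} : ℝ) := by
  classical
  obtain ⟨θ, hθ⟩ := exists_thetaStar
  have hθ' := hθ
  obtain ⟨hθ0, w, hw, hv⟩ := hθ'
  have hE := eqs_of hv
  have hlt : θ < 52 / 23 := theta_lt hθ0 hw hE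
  have hgt : 2 < θ := theta_gt hθ0 hw hE
  have hPar := Pool.Agent.H12.EV.par_of hgt hlt hw hE
  obtain ⟨c, hc0, hc⟩ := Pool.Agent.H82.EV.renewal hPar
  have e : 1 + tau = Real.log 25 / Real.log 12 := by
    unfold tau
    ring
  have hτ := tau_gt
  refine ⟨θ, hθ, fun θ' h' => thetaStar_unique hθ h', by linarith, by linarith, ?_⟩
  intro ρ h1 h2
  obtain ⟨c', hc', h3⟩ := power_low hPar hlt (mul_pos hc0 (hPar.vpos 1 (by norm_num)))
    (hc 1 (by norm_num)) h1 (by rw [e]; exact h2)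
  refine ⟨c', hc', ?_⟩
  intro N hN
  have h4 := h3 N hN
  rw [e] at h4
  have h5 : Set.ncard {n : ℕ | 1 ≤ n ∧ n ≤ N ∧ (((n : ℝ) ^ ρ : ℝ) : EReal) < t n} =
      ((Finset.Icc 1 N).filter (fun n : ℕ => (((n : ℝ) ^ ρ : ℝ) : EReal) < t n)).card := by
    have h : {n : ℕ | 1 ≤ n ∧ n ≤ N ∧ (((n : ℝ) ^ ρ : ℝ) : EReal) < t n} =
        (((Finset.Icc 1 N).filter (fun n : ℕ => (((n : ℝ) ^ ρ : ℝ) : EReal) < t n) : Finset ℕ) :
          Set ℕ) := by
      ext n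
      rw [Finset.mem_coe, Finset.mem_filter, Finset.mem_Icc]
      constructor
      · intro hn
        exact ⟨⟨hn.1, hn.2.1⟩, hn.2.2⟩
      · intro hn
        exact ⟨hn.1.1, hn.1.2, hn.2⟩
    rw [h, Set.ncard_coe_finset]
  rw [h5]
  convert h4

end Pool.Agent.Results.MP_4d3999_nt.PowerCount
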