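import Pool.Agent.H12.EW.LowQ
import Pool.Agent.H83.EX.Uniq

/-!
The Kakutani 5x+1 map: lower bounds, with the constant of the model of the problem, for the number
of the `n` with `t(n) ≥ L * n` in all intervals and all arithmetic progressions with difference
coprime to 6, and with `t(n) > n ^ ρ`, `ρ ≤ 1.17`.

The definitions are in `Pool/Agent/H83/EX/Defs.lean` (`C`, `t`, `P`, `F`, `IsThetaStar`),
`Pool/Agent/H12/EV/Walk.lean` (`W`) and `Pool/Agent/H12/EW/Walk0.lean` (`reach`).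
-/

namespace Pool.Agent.Results.MP_4d3999_nt.SharpCount

open Filter Pool.Agent.H83.EX Pool.Agent.H12.EW
open Pool.Agent.H12.EV (mean cnt)

lemma ncard_KQ (L : ℝ) (a q S : ℕ) :
    Set.ncard {s : ℕ | s < S ∧ ((L * ((a + q * s : ℕ) : ℝ) : ℝ) : EReal) ≤ t (a + q * s)} =
      KQ L a q S := by
  classical
  have h : {s : ℕ | s < S ∧ ((L * ((a + q * s : ℕ) : ℝ) : ℝ) : EReal) ≤ t (a + q * s)} =
      (((Finset.range S).filter (fun s : ℕ =>
        ((L * ((a + q * s : ℕ) : ℝ) : ℝ) : EReal) ≤ t (a + q * s)) : Finset ℕ) : Set ℕ) := by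
    ext n
    rw [Finset.mem_coe, Finset.mem_filter, Finset.mem_range]
    rfl
  rw [h, Set.ncard_coe_finset]
  unfold KQ
  congr

lemma cop {q : ℕ} (h : Nat.Coprime q 6) : q % 2 = 1 ∧ q % 3 ≠ 0 := by
  have h0 : Nat.gcd q 6 = 1 := h
  constructor
  · by_contra h1
    have h2 : 2 ∣ q := by omega
    have h3 : 2 ∣ Nat.gcd q 6 := Nat.dvd_gcd h2 (by norm_num)
    rw [h0] at h3
    omega
  · intro h1
    have h2 : 3 ∣ q := by omega
    have h3 : 3 ∣ Nat.gcd q 6 := Nat.dvd_gcd h2 (by norm_num)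
    rw [h0] at h3
    omega

/-- There is exactly one `θ > 0` for which the Perron root of `F θ * P` is one, and for this `θ`
there is `κ > 0` such that:

* `reach L * L ^ θ` tends to `κ` as `L` tends to infinity, where `reach L` is the probability
  that the model of the problem ever reaches the value `L`;
* for every `η > 0` there are `S₀`, `L₀` such that for all `a ≥ 1`, all `q` coprime to 6, all
  `S ≥ S₀` and `L₀ ≤ L ≤ S ^ 0.17` at least `(κ - η) * S * L ^ (-θ)` of the `n = a + q s`,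
  `0 ≤ s < S`, satisfy `t(n) ≥ L * n`;
* for every `L > 0` and `η > 0` there is `S₀` such that for all `a ≥ 1`, all `q` coprime to 6 and
  all `S ≥ S₀` at least `(reach L - η) * S` of the `n = a + q s`, `0 ≤ s < S`, satisfy
  `t(n) ≥ L * n`;
* for `1 < ρ ≤ 1.17` and `a = 1 - θ * (ρ - 1)` the number of the `n ≤ N` with `t(n) > n ^ ρ` is
  at least `(κ / a - o(1)) * N ^ a`. -/
theorem result : ∃ θ : ℝ, IsThetaStar θ ∧ (∀ θ' : ℝ, IsThetaStar θ' → θ' = θ) ∧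
    ∃ κ : ℝ, 0 < κ ∧
    Tendsto (fun L : ℝ => reach L * L ^ θ) atTop (nhds κ) ∧
    (∀ η : ℝ, 0 < η → ∃ (S₀ : ℕ) (L₀ : ℝ), ∀ a q S : ℕ, 1 ≤ a → Nat.Coprime q 6 → S₀ ≤ S →
      ∀ L : ℝ, L₀ ≤ L → L ≤ (S : ℝ) ^ (17 / 100 : ℝ) → (κ - η) * ((S : ℝ) * L ^ (-θ)) ≤
        (Set.ncard {s : ℕ | s < S ∧
          ((L * ((a + q * s : ℕ) : ℝ) : ℝ) : EReal) ≤ t (a + q * s)} : ℝ)) ∧
    (∀ L : ℝ, 0 < L → ∀ η : ℝ, 0 < η → ∃ S₀ : ℕ, ∀ a q S : ℕ, 1 ≤ a → Nat.Coprime q 6 →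
      S₀ ≤ S → (reach L - η) * (S : ℝ) ≤
        (Set.ncard {s : ℕ | s < S ∧
          ((L * ((a + q * s : ℕ) : ℝ) : ℝ) : EReal) ≤ t (a + q * s)} : ℝ)) ∧
    (∀ ρ : ℝ, 1 < ρ → ρ ≤ 117 / 100 → ∀ η : ℝ, 0 < η → ∀ᶠ N : ℕ in atTop,
      (κ / (1 - θ * (ρ - 1)) - η) * (N : ℝ) ^ (1 - θ * (ρ - 1)) ≤
        (Set.ncard {n : ℕ | 1 ≤ n ∧ n ≤ N ∧ (((n : ℝ) ^ ρ : ℝ) : EReal) < t n} : ℝ)) := by
  obtain ⟨θ, hθ⟩ := exists_thetaStar
  have hθ' := hθ
  obtain ⟨hθ0, w, hw, hv⟩ := hθ'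
  have hE := eqs_of hv
  have hlt : θ < 52 / 23 := theta_lt hθ0 hw hE
  have hgt : 2 < θ := theta_gt hθ0 hw hE
  have hPar := Pool.Agent.H12.EV.par_of hgt hlt hw hE
  obtain ⟨c, hc0, hc⟩ := Pool.Agent.H82.EV.renewal hPar
  have hpos : 0 < mean (fun r => c * Pool.Agent.H83.EX.vN 1 w r) := by
    unfold Pool.Agent.H12.EV.mean
    refine div_pos (Finset.sum_pos ?_ ⟨0, Finset.mem_range.mpr (by norm_num)⟩) (by norm_num)
    intro r hr
    exact mul_pos hc0 (hPar.vpos r (Finset.mem_range.mp hr))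
  refine ⟨θ, hθ, fun θ' h' => thetaStar_unique hθ h',
    mean (fun r => c * Pool.Agent.H83.EX.vN 1 w r), hpos, reach_lim hc, ?_, ?_, ?_⟩
  · intro η hη
    obtain ⟨S₀, L₀, h⟩ := KQ_asym hPar hlt hc hη
    refine ⟨S₀, L₀, ?_⟩
    intro a q S _ hq hS L hL hLS
    rw [ncard_KQ]
    exact h a q S (cop hq).1 (cop hq).2 hS L hL hLS
  · intro L hL η hη
    obtain ⟨S₀, h⟩ := KQ_dens hPar hL hη
    refine ⟨S₀, ?_⟩
    intro a q S _ hq hS
    rw [ncard_KQ]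
    exact h a q S (cop hq).1 (cop hq).2 hS
  · intro ρ hρ hρ2 η hη
    have h1 := deep_lowG hPar hpos hc hlt hρ (show (0 : ℝ) < 1 by norm_num) hρ2 hη
    filter_upwards [h1] with N h2
    rw [ncard_cnt]
    refine h2.trans ?_
    exact_mod_cast cnt_mono' (fun n h => lt_t h) (N : ℝ)

end Pool.Agent.Results.MP_4d3999_nt.SharpCount
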