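import Pool.Agent.H12.Rig.Torus

namespace Pool.Agent.Results.MP_562323_ag.TorusObstruction

open MvPolynomial

/-- Let `I` be an ideal of `K[x_1, ..., x_n]`, `K` any field, which contains a power of the ideal
of the variables and is homogeneous for weights `w_j ≥ 0` exactly one of which is zero,
`w_(i0) = 0`, and let `x_(i0)` not be in `I`. Then `Spec (K[x_1, ..., x_n] / I)` is not rigid:
some linear map `I → K[x_1, ..., x_n] / I` is not induced by a derivation. -/
theorem result (K : Type) [Field K] (n : ℕ) (w : Fin n → ℕ) (i0 : Fin n) (hw0 : w i0 = 0)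
    (hw : ∀ j, j ≠ i0 → 0 < w j) (I : Ideal (MvPolynomial (Fin n) K))
    (hI : ∀ f ∈ I, ∀ k, weightedHomogeneousComponent w k f ∈ I)
    (hN : ∃ N : ℕ, Ideal.span (Set.range (X : Fin n → MvPolynomial (Fin n) K)) ^ N ≤ I)
    (hx : (X i0 : MvPolynomial (Fin n) K) ∉ I) :
    ∃ φ : I →ₗ[MvPolynomial (Fin n) K] (MvPolynomial (Fin n) K ⧸ I),
      ¬ ∃ a : Fin n → MvPolynomial (Fin n) K ⧸ I, ∀ f : I,
        φ f = ∑ i : Fin n,
          Ideal.Quotient.mk I (pderiv i (f : MvPolynomial (Fin n) K)) * a i :=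
  Pool.Agent.H12.Rig.torus hw0 hw hI hN hx

end Pool.Agent.Results.MP_562323_ag.TorusObstruction
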